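import Pool.Agent.Lib.MP_392c14_co.Ev.PB.Pen
import Pool.Agent.Lib.MP_392c14_co.StepA6
set_option autoImplicit false
set_option maxRecDepth 1000000
set_option linter.all false

namespace K4m.Ev.PB

theorem tabB_ok : tabB 14 10 5 0 W1 = true := by decide +kernel

end K4m.Ev.PB
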