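import Pool.Agent.Lib.MP_392c14_co.Ev.PB.Final
import Pool.Agent.Lib.MP_392c14_co.Ev.PB.TabB
set_option autoImplicit false
set_option maxRecDepth 1000000
set_option linter.all false

namespace K4m.Ev.PB

/-- selection of a standard copy -/
theorem sel (hl : 2 / 7 ≤ rho) (hu : rho ≤ 28572 / 100000)
    {V : Type} [Fintype V] [DecidableEq V] (G : TG V) (w : V → ℝ) (hw : IsW w)
    (hpos : ∀ x, 0 < w x) (t : ℝ) (hd : ∀ x, deg G w x = t) (hn : |rho - t| ≤ 1 / 10 ^ 9) :
    ∃ u, St G u ∧ 14 * Xu G w u + 10 * Pf G w u + 5 * Qf G w u < 6 / 125 := by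
  have h := exists_sel_table G w hpos 14 10 5 W1 (6 / 125) tabB_ok
    (final1 hl hu G w hw t hd hn)
  exact_mod_cast h

end K4m.Ev.PB
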