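import Pool.Agent.Lib.MP_392c14_co.Ev.Psd5
import Pool.Agent.Lib.MP_392c14_co.Ev.PB.Tabs
set_option autoImplicit false
set_option maxRecDepth 1000000
set_option linter.all false

namespace K4m.Ev.PB

theorem tabChk0 : allR (tabChk 2361183241434822606848 gtF tabC) (List.range' 0 64) = true := by decide +kernel

theorem tabChk1 : allR (tabChk 2361183241434822606848 gtF tabC) (List.range' 64 64) = true := by decide +kernel

theorem tabChk2 : allR (tabChk 2361183241434822606848 gtF tabC) (List.range' 128 64) = true := by decide +kernel

theorem tabChk3 : allR (tabChk 2361183241434822606848 gtF tabC) (List.range' 192 64) = true := by decide +kernel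

theorem tabChk4 : allR (tabChk 2361183241434822606848 gtF tabC) (List.range' 256 64) = true := by decide +kernel

theorem tabChk5 : allR (tabChk 2361183241434822606848 gtF tabC) (List.range' 320 64) = true := by decide +kernel

theorem tabChk6 : allR (tabChk 2361183241434822606848 gtF tabC) (List.range' 384 64) = true := by decide +kernel

theorem tabChk7 : allR (tabChk 2361183241434822606848 gtF tabC) (List.range' 448 64) = true := by decide +kernel

theorem tabChk8 : allR (tabChk 2361183241434822606848 gtF tabC) (List.range' 512 64) = true := by decide +kernel

theorem tabChk9 : allR (tabChk 2361183241434822606848 gtF tabC) (List.range' 576 64) = true := by decide +kernel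

theorem tabChk10 : allR (tabChk 2361183241434822606848 gtF tabC) (List.range' 640 64) = true := by decide +kernel

theorem tabChk11 : allR (tabChk 2361183241434822606848 gtF tabC) (List.range' 704 64) = true := by decide +kernel

theorem tabChk12 : allR (tabChk 2361183241434822606848 gtF tabC) (List.range' 768 64) = true := by decide +kernel

theorem tabChk13 : allR (tabChk 2361183241434822606848 gtF tabC) (List.range' 832 64) = true := by decide +kernel

theorem tabChk14 : allR (tabChk 2361183241434822606848 gtF tabC) (List.range' 896 64) = true := by decide +kernel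

theorem tabChk15 : allR (tabChk 2361183241434822606848 gtF tabC) (List.range' 960 64) = true := by decide +kernel

theorem tabOK : TabOK (2 ^ (72 - 1)) gtF tabC := by
  have hoff : 2361183241434822606848 = 2 ^ (72 - 1) := by norm_num
  rw [← hoff]
  intro c hc hf
  refine tabChk_sound 2361183241434822606848 gtF tabC c ?_ hf
  have key : ∀ k, k < 16 → allR (tabChk 2361183241434822606848 gtF tabC) (List.range' (k * 64) 64) = true := by
    intro k hk
    interval_cases k
    · exact tabChk0
    · exact tabChk1
    · exact tabChk2
    · exact tabChk3
    · exact tabChk4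
    · exact tabChk5
    · exact tabChk6
    · exact tabChk7
    · exact tabChk8
    · exact tabChk9
    · exact tabChk10
    · exact tabChk11
    · exact tabChk12
    · exact tabChk13
    · exact tabChk14
    · exact tabChk15
  have h := allR_sound _ _ (key (c / 64) (by omega)) c
  refine h (List.mem_range'_1.2 ⟨by omega, by omega⟩)

theorem rngChk : (g5.all fun τ => (List.range 1024).all fun x =>
    Nat.ble (baseF τ) (gf (gtF τ) x) && Nat.blt (gf (gtF τ) x) (baseF τ + numF τ)) = true := by
  decide +kernel

theorem rngOK : ∀ τ ∈ g5, ∀ x < 1024, baseF τ ≤ gf (gtF τ) x ∧ gf (gtF τ) x < baseF τ + numF τ := by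
  intro τ hτ x hx
  have h := List.all_eq_true.1 (List.all_eq_true.1 rngChk τ hτ) x (List.mem_range.2 hx)
  rw [Bool.and_eq_true] at h
  exact ⟨Nat.le_of_ble_eq_true h.1, Nat.le_of_ble_eq_true h.2⟩

end K4m.Ev.PB
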