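import Pool.Agent.Lib.MP_392c14_co.Ev.PB.QV
set_option autoImplicit false
set_option maxRecDepth 1000000
set_option linter.all false

namespace K4m.Ev.PB

theorem vc6_0 : tabV 72 4722366482869645213696 VP6 QV 18 (List.take 8 (List.drop 0 cs6)) 0 = true := by decide +kernel

theorem vc6_1 : tabV 72 4722366482869645213696 VP6 QV 18 (List.take 8 (List.drop 8 cs6)) 8 = true := by decide +kernel

theorem vc6_2 : tabV 72 4722366482869645213696 VP6 QV 18 (List.take 8 (List.drop 16 cs6)) 16 = true := by decide +kernel

theorem rows6 : RowsOK 72 QV cs6 VP6 := by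
  refine rows_of_chunks 72 VP6 QV cs6 fun k hk => ?_
  have hl : cs6.length = 18 := rfl
  rw [hl] at hk ⊢
  have hp : (2 : ℕ) ^ 72 = 4722366482869645213696 := by norm_num
  rw [hp]
  have hk2 : k < 3 := by omega
  interval_cases k
  · exact vc6_0
  · exact vc6_1
  · exact vc6_2

end K4m.Ev.PB
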