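import Pool.Agent.Lib.MP_392c14_co.Ev.PB.QV
set_option autoImplicit false
set_option maxRecDepth 1000000
set_option linter.all false

namespace K4m.Ev.PB

theorem vc8_0 : tabV 72 4722366482869645213696 VP8 QV 26 (List.take 8 (List.drop 0 cs8)) 0 = true := by decide +kernel

theorem vc8_1 : tabV 72 4722366482869645213696 VP8 QV 26 (List.take 8 (List.drop 8 cs8)) 8 = true := by decide +kernel

theorem vc8_2 : tabV 72 4722366482869645213696 VP8 QV 26 (List.take 8 (List.drop 16 cs8)) 16 = true := by decide +kernel

theorem vc8_3 : tabV 72 4722366482869645213696 VP8 QV 26 (List.take 8 (List.drop 24 cs8)) 24 = true := by decide +kernel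

theorem rows8 : RowsOK 72 QV cs8 VP8 := by
  refine rows_of_chunks 72 VP8 QV cs8 fun k hk => ?_
  have hl : cs8.length = 26 := rfl
  rw [hl] at hk ⊢
  have hp : (2 : ℕ) ^ 72 = 4722366482869645213696 := by norm_num
  rw [hp]
  have hk2 : k < 4 := by omega
  interval_cases k
  · exact vc8_0
  · exact vc8_1
  · exact vc8_2
  · exact vc8_3

end K4m.Ev.PB
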