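import Pool.Agent.Lib.MP_392c14_co.Ev.PB.QV
set_option autoImplicit false
set_option maxRecDepth 1000000
set_option linter.all false

namespace K4m.Ev.PB

theorem vc9_0 : tabV 72 4722366482869645213696 VP9 QV 18 (List.take 8 (List.drop 0 cs9)) 0 = true := by decide +kernel

theorem vc9_1 : tabV 72 4722366482869645213696 VP9 QV 18 (List.take 8 (List.drop 8 cs9)) 8 = true := by decide +kernel

theorem vc9_2 : tabV 72 4722366482869645213696 VP9 QV 18 (List.take 8 (List.drop 16 cs9)) 16 = true := by decide +kernel

theorem rows9 : RowsOK 72 QV cs9 VP9 := by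
  refine rows_of_chunks 72 VP9 QV cs9 fun k hk => ?_
  have hl : cs9.length = 18 := rfl
  rw [hl] at hk ⊢
  have hp : (2 : ℕ) ^ 72 = 4722366482869645213696 := by norm_num
  rw [hp]
  have hk2 : k < 3 := by omega
  interval_cases k
  · exact vc9_0
  · exact vc9_1
  · exact vc9_2

end K4m.Ev.PB
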