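import Pool.Agent.Lib.MP_392c14_co.Ev.PB.VC0
import Pool.Agent.Lib.MP_392c14_co.Ev.PB.VC1
import Pool.Agent.Lib.MP_392c14_co.Ev.PB.VC2
import Pool.Agent.Lib.MP_392c14_co.Ev.PB.VC3
import Pool.Agent.Lib.MP_392c14_co.Ev.PB.VC4
import Pool.Agent.Lib.MP_392c14_co.Ev.PB.VC5
import Pool.Agent.Lib.MP_392c14_co.Ev.PB.VC6
import Pool.Agent.Lib.MP_392c14_co.Ev.PB.VC8
import Pool.Agent.Lib.MP_392c14_co.Ev.PB.VC9
import Pool.Agent.Lib.MP_392c14_co.Ev.PB.VC10
import Pool.Agent.Lib.MP_392c14_co.Ev.PB.VC12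
set_option autoImplicit false
set_option maxRecDepth 1000000
set_option linter.all false

namespace K4m.Ev.PB

theorem locOK : (lab5.all fun c => decide ((cls (c % 16))[locV LTV c]? = some c)) = true := by
  decide +kernel

theorem vOK : VOk 72 LTV QV cutL := by
  refine vok 72 LTV QV cutL (by norm_num) (by decide +kernel) ?_ ?_
  · intro c hc
    exact of_decide_eq_true (List.all_eq_true.1 locOK c hc)
  · intro P hP
    interval_cases P
    · exact ⟨VP0, by rw [cs0_eq]; exact VP0_eq, by rw [cs0_eq]; exact rows0⟩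
    · exact ⟨VP1, by rw [cs1_eq]; exact VP1_eq, by rw [cs1_eq]; exact rows1⟩
    · exact ⟨VP2, by rw [cs2_eq]; exact VP2_eq, by rw [cs2_eq]; exact rows2⟩
    · exact ⟨VP3, by rw [cs3_eq]; exact VP3_eq, by rw [cs3_eq]; exact rows3⟩
    · exact ⟨VP4, by rw [cs4_eq]; exact VP4_eq, by rw [cs4_eq]; exact rows4⟩
    · exact ⟨VP5, by rw [cs5_eq]; exact VP5_eq, by rw [cs5_eq]; exact rows5⟩
    · exact ⟨VP6, by rw [cs6_eq]; exact VP6_eq, by rw [cs6_eq]; exact rows6⟩
    · exact ⟨_, rfl, fun i hi => absurd hi (by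
        have h : (cls 7).length = 0 := by decide +kernel
        rw [h]; exact Nat.not_lt_zero _)⟩
    · exact ⟨VP8, by rw [cs8_eq]; exact VP8_eq, by rw [cs8_eq]; exact rows8⟩
    · exact ⟨VP9, by rw [cs9_eq]; exact VP9_eq, by rw [cs9_eq]; exact rows9⟩
    · exact ⟨VP10, by rw [cs10_eq]; exact VP10_eq, by rw [cs10_eq]; exact rows10⟩
    · exact ⟨_, rfl, fun i hi => absurd hi (by
        have h : (cls 11).length = 0 := by decide +kernel
        rw [h]; exact Nat.not_lt_zero _)⟩
    · exact ⟨VP12, by rw [cs12_eq]; exact VP12_eq, by rw [cs12_eq]; exact rows12⟩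
    · exact ⟨_, rfl, fun i hi => absurd hi (by
        have h : (cls 13).length = 0 := by decide +kernel
        rw [h]; exact Nat.not_lt_zero _)⟩
    · exact ⟨_, rfl, fun i hi => absurd hi (by
        have h : (cls 14).length = 0 := by decide +kernel
        rw [h]; exact Nat.not_lt_zero _)⟩
    · exact ⟨_, rfl, fun i hi => absurd hi (by
        have h : (cls 15).length = 0 := by decide +kernel
        rw [h]; exact Nat.not_lt_zero _)⟩

end K4m.Ev.PB
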