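import Pool.Agent.Lib.MP_392c14_co.Ev.PB.E0
import Pool.Agent.Lib.MP_392c14_co.Ev.PB.E1
import Pool.Agent.Lib.MP_392c14_co.Ev.PB.E2
import Pool.Agent.Lib.MP_392c14_co.Ev.PB.E3
import Pool.Agent.Lib.MP_392c14_co.Ev.PB.E4
import Pool.Agent.Lib.MP_392c14_co.Ev.PB.E5
import Pool.Agent.Lib.MP_392c14_co.Ev.PB.E6
import Pool.Agent.Lib.MP_392c14_co.Ev.PB.E7
import Pool.Agent.Lib.MP_392c14_co.Ev.PB.E8
import Pool.Agent.Lib.MP_392c14_co.Ev.PB.E9
import Pool.Agent.Lib.MP_392c14_co.Ev.PB.E10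
import Pool.Agent.Lib.MP_392c14_co.Ev.PB.E11
import Pool.Agent.Lib.MP_392c14_co.Ev.PB.E12
import Pool.Agent.Lib.MP_392c14_co.Ev.PB.E13
import Pool.Agent.Lib.MP_392c14_co.Ev.PB.E14
import Pool.Agent.Lib.MP_392c14_co.Ev.PB.E15
import Pool.Agent.Lib.MP_392c14_co.Ev.PB.E16
import Pool.Agent.Lib.MP_392c14_co.Ev.PB.Data5
import Pool.Agent.Lib.MP_392c14_co.Ev.PB.B3
import Pool.Agent.Lib.MP_392c14_co.Ev.PB.TabOK
import Pool.Agent.Lib.MP_392c14_co.Ev.PB.VOK
import Pool.Agent.Lib.MP_392c14_co.Ev.Bound2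
set_option autoImplicit false
set_option maxRecDepth 1000000
set_option linter.all false

namespace K4m.Ev.PB

noncomputable def cert : Cert where
  W := 72
  Q := tabQ
  gt := gtF
  tab := tabC
  W3 := 72
  I3 := tI3
  Q3 := tabQ3
  cl := cutL
  Wm := 80
  Tm := tMu
  a5 := 1
  a3 := 1

theorem cert_good : cert.Good where
  d5 := ⟨_, _, _, _, data5⟩
  tab := tabOK
  d3 := ⟨_, _, _, _, _, data3⟩
  s3 := sym3
  cuts := cutL_good
  dg := symMu

theorem cutU_eq : cutL.u = cutU := rfl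

theorem test_eq (H : TG (Fin 7)) :
    cert.test 2 7 340866895969 28572 100000 1 35712705200669016240 (fun m => 60 * pj WP m + 646919891329) (fun m => 60 * pj WQ m) (code7 H) = testL (code7 H) := by
  have hp72 : (2 : ℕ) ^ (72 - 1) = 2361183241434822606848 := by norm_num
  have hf72 : (2 : ℕ) ^ 72 = 4722366482869645213696 := by norm_num
  have hp80 : (2 : ℕ) ^ (80 - 1) = 604462909807314587353088 := by norm_num
  have hf80 : (2 : ℕ) ^ 80 = 1208925819614629174706176 := by norm_num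
  show evalR 72 (2 ^ 72) tabQ tabC 72 (2 ^ 72) tI3 tabQ3 cutL 80 (2 ^ 80) tMu (2 ^ (80 - 1))
    masks5 masks3 masksC masksD (force (fun pp => force (fun pn => chkR 1 1 (2 ^ (72 - 1))
      (2 ^ (72 - 1)) (2 ^ (80 - 1)) 2 7 340866895969 28572 100000 1 35712705200669016240 pp pn) ((fun m => 60 * pj WQ m) (code7 H))) ((fun m => 60 * pj WP m + 646919891329) (code7 H)))
      (code7 H) = _
  rw [evalV_evalR _ _ _ _ _ _ _ _ cutL 72 LTV QV _ _ _ _ _ _ _ _ vOK H, cutU_eq]
  unfold testL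
  rw [masks3L_eq, masksCL_eq, masksDL_eq, hf72, hf80, hp72, hp80]

theorem all_ok : ∀ m ∈ reps, testL m = true := by
  intro m hm
  unfold reps at hm
  simp only [List.mem_append] at hm
  rcases hm with hm | hm | hm | hm | hm | hm | hm | hm | hm | hm | hm | hm | hm | hm | hm | hm | hm
  · exact e0 m hm
  · exact e1 m hm
  · exact e2 m hm
  · exact e3 m hm
  · exact e4 m hm
  · exact e5 m hm
  · exact e6 m hm
  · exact e7 m hm
  · exact e8 m hm
  · exact e9 m hm
  · exact e10 m hm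
  · exact e11 m hm
  · exact e12 m hm
  · exact e13 m hm
  · exact e14 m hm
  · exact e15 m hm
  · exact e16 m hm


theorem checked : ∀ H : TG (Fin 7), code7 H ∈ reps →
    cert.test 2 7 340866895969 28572 100000 1 35712705200669016240 (fun m => 60 * pj WP m + 646919891329) (fun m => 60 * pj WQ m) (code7 H) = true := by
  intro H hH
  rw [test_eq]
  exact all_ok _ hH

end K4m.Ev.PB
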