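import Pool.Agent.Lib.MP_392c14_co.Ev.CutW
set_option autoImplicit false
set_option maxRecDepth 1000000
set_option linter.all false

namespace K4m.Ev.PB

noncomputable def TW1 : Tr Nat := (.node (.node (.node (.node (.leaf 0) (.node (.node (.node (.node (.node (.node (.leaf 0x18060180601806) (.leaf 0)) (.leaf 0)) (.node (.node (.leaf 0xfa000fa000) (.leaf 0)) (.leaf 0))) (.node (.leaf 0) (.node (.node (.leaf 0xa5c00a5c00) (.leaf 0)) (.leaf 0)))) (.node (.node (.node (.node (.leaf 0xfa00000000003e8) (.leaf 0)) (.node (.leaf 0xa5c000000000297) (.leaf 0))) (.node (.node (.leaf 0x8b0008b00000000) (.leaf 0)) (.leaf 0))) (.leaf 0))) (.node (.node (.node (.node (.node (.leaf 0x3e8003e800000) (.leaf 0x2970029700000)) (.leaf 0)) (.node (.node (.leaf 0x22c000008b000) (.leaf 0)) (.leaf 0))) (.leaf 0)) (.node (.node (.node (.node (.leaf 0x22c0022c) (.leaf 0)) (.leaf 0)) (.leaf 0)) (.leaf 0))))) (.node (.node (.node (.node (.node (.node (.node (.leaf 0x18060180601806000000000000000) (.leaf 0)) (.node (.leaf 0xfa000fa000000000000000000) (.leaf 0))) (.leaf 0)) (.node (.node (.node (.leaf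 0xfa00000000003e8000000000000000) (.leaf 0)) (.node (.leaf 0x8b0008b00000000000000000000000) (.leaf 0))) (.node (.node (.leaf 0xa5c000000000297000000000000000) (.leaf 0)) (.leaf 0)))) (.node (.node (.node (.leaf 0) (.node (.leaf 0xa5c00a5c00000000000000000) (.leaf 0))) (.leaf 0)) (.leaf 0))) (.node (.node (.node (.node (.node (.leaf 0x3e8003e800000000000000000000) (.leaf 0x2970029700000000000000000000)) (.node (.leaf 0x22c000008b000000000000000000) (.leaf 0))) (.leaf 0)) (.node (.node (.node (.leaf 0x22c0022c000000000000000) (.leaf 0)) (.leaf 0)) (.leaf 0))) (.leaf 0))) (.leaf 0))) (.node (.node (.node (.node (.node (.node (.node (.node (.leaf 0x18060180601806000000000000000000000000000000) (.leaf 0xfa000fa000000000000000000000000000000000)) (.leaf 0)) (.leaf 0)) (.node (.node (.node (.leaf 0xfa00000000003e8000000000000000000000000000000) (.leaf 0x8b0008b00000000000000000000000000000000000000)) (.leaf 0)) (.node (.node (.leaf 0xa5c000000000297000000000000000000000000000000) (.leaf 0)) (.leaf 0)))) (.node (.node (.node (.node (.leaf 0x3e8003e800000000000000000000000000000000000)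 (.leaf 0x22c000008b000000000000000000000000000000000)) (.node (.leaf 0x2970029700000000000000000000000000000000000) (.leaf 0))) (.leaf 0)) (.node (.node (.node (.leaf 0x22c0022c000000000000000000000000000000) (.leaf 0)) (.leaf 0)) (.leaf 0)))) (.node (.node (.node (.node (.node (.leaf 0) (.leaf 0xa5c00a5c00000000000000000000000000000000)) (.leaf 0)) (.leaf 0)) (.leaf 0)) (.leaf 0))) (.leaf 0)) (.leaf 0))) (.node (.node (.node (.node (.node (.node (.node (.node (.node (.leaf 0x18060180601806000000000000000000000000000000000000000000000) (.leaf 0xfa000fa000000000000000000000000000000000000000000000000)) (.node (.leaf 0xfa00000000003e8000000000000000000000000000000000000000000000) (.leaf 0x8b0008b00000000000000000000000000000000000000000000000000000))) (.node (.node (.leaf 0x3e8003e800000000000000000000000000000000000000000000000000) (.leaf 0x22c000008b000000000000000000000000000000000000000000000000)) (.node (.leaf 0x22c0022c000000000000000000000000000000000000000000000) (.leaf 0)))) (.node (.leaf 0) (.node (.node (.leaf 0x2970029700000000000000000000000000000000000000000000000000)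 (.leaf 0)) (.leaf 0)))) (.node (.node (.node (.leaf 0) (.node (.leaf 0xa5c000000000297000000000000000000000000000000000000000000000) (.leaf 0))) (.leaf 0)) (.leaf 0))) (.node (.node (.node (.node (.node (.leaf 0) (.leaf 0xa5c00a5c00000000000000000000000000000000000000000000000)) (.leaf 0)) (.leaf 0)) (.leaf 0)) (.leaf 0))) (.leaf 0)) (.leaf 0)) (.leaf 0)))

theorem symW1 : SymW TW1 := by unfold SymW; decide +kernel

end K4m.Ev.PB
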