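import Pool.Agent.Lib.MP_392c14_co.Ev.CutW
set_option autoImplicit false
set_option maxRecDepth 1000000
set_option linter.all false

namespace K4m.Ev.PB

noncomputable def TW2 : Tr Nat := (.node (.node (.node (.node (.leaf 0) (.node (.node (.leaf 0) (.node (.node (.leaf 0) (.node (.leaf 0) (.node (.leaf 0xfa0000000000000) (.leaf 0)))) (.node (.leaf 0) (.node (.node (.leaf 0xfa00000000) (.leaf 0)) (.leaf 0))))) (.node (.node (.node (.leaf 0) (.node (.node (.leaf 0) (.leaf 0x3e80000000000)) (.leaf 0))) (.node (.leaf 0) (.node (.node (.leaf 0xfa000) (.leaf 0)) (.leaf 0)))) (.node (.node (.node (.node (.leaf 0) (.leaf 0x3e800000)) (.node (.leaf 0x3e8) (.leaf 0))) (.leaf 0)) (.leaf 0))))) (.node (.node (.node (.node (.leaf 0) (.node (.leaf 0) (.node (.leaf 0) (.node (.leaf 0xfa0000000000000000000000000000) (.leaf 0))))) (.node (.leaf 0) (.node (.node (.leaf 0) (.node (.leaf 0xfa00000000000000000000000) (.leaf 0))) (.leaf 0)))) (.node (.node (.node (.node (.leaf 0) (.node (.leaf 0) (.leaf 0x3e80000000000000000000000000))) (.leaf 0)) (.node (.node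 (.node (.leaf 0) (.leaf 0x3e800000000000000000000)) (.leaf 0)) (.node (.node (.leaf 0x3e8000000000000000) (.leaf 0)) (.leaf 0)))) (.node (.node (.node (.leaf 0) (.node (.leaf 0xfa000000000000000000) (.leaf 0))) (.leaf 0)) (.leaf 0)))) (.leaf 0))) (.node (.node (.node (.node (.node (.leaf 0) (.node (.leaf 0) (.node (.node (.leaf 0) (.leaf 0xfa0000000000000000000000000000000000000000000)) (.leaf 0)))) (.node (.node (.node (.leaf 0) (.node (.leaf 0) (.leaf 0x3e80000000000000000000000000000000000000000))) (.leaf 0)) (.node (.node (.leaf 0) (.node (.leaf 0x3e800000000000000000000000000000000000) (.leaf 0))) (.node (.node (.leaf 0x3e8000000000000000000000000000000) (.leaf 0)) (.leaf 0))))) (.node (.node (.leaf 0) (.node (.node (.node (.leaf 0) (.leaf 0xfa00000000000000000000000000000000000000)) (.leaf 0)) (.leaf 0))) (.node (.node (.node (.node (.leaf 0) (.leaf 0xfa000000000000000000000000000000000)) (.leaf 0)) (.leaf 0)) (.leaf 0)))) (.leaf 0)) (.leaf 0))) (.node (.node (.node (.node (.node (.node (.leaf 0) (.node (.leaf 0) (.node (.node (.leaf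 0) (.leaf 0x3e80000000000000000000000000000000000000000000000000000000)) (.node (.leaf 0x3e800000000000000000000000000000000000000000000000000) (.leaf 0))))) (.node (.node (.node (.leaf 0) (.node (.leaf 0) (.leaf 0xfa0000000000000000000000000000000000000000000000000000000000))) (.node (.leaf 0) (.node (.leaf 0x3e8000000000000000000000000000000000000000000000) (.leaf 0)))) (.leaf 0))) (.node (.node (.node (.node (.leaf 0) (.node (.leaf 0) (.leaf 0xfa00000000000000000000000000000000000000000000000000000))) (.node (.node (.leaf 0) (.leaf 0xfa000000000000000000000000000000000000000000000000)) (.leaf 0))) (.leaf 0)) (.leaf 0))) (.leaf 0)) (.leaf 0)) (.leaf 0)))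

theorem symW2 : SymW TW2 := by unfold SymW; decide +kernel

end K4m.Ev.PB
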