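import Pool.Agent.Lib.MP_392c14_co.Ev.CutW
set_option autoImplicit false
set_option maxRecDepth 1000000
set_option linter.all false

namespace K4m.Ev.PB

noncomputable def TW3 : Tr Nat := (.node (.node (.node (.leaf 0) (.node (.leaf 0) (.node (.node (.node (.node (.node (.node (.leaf 0x1ec7b00000000001ec7b) (.leaf 0)) (.leaf 0)) (.leaf 0)) (.leaf 0)) (.leaf 0)) (.node (.node (.leaf 0) (.node (.leaf 0) (.node (.node (.leaf 0x3e80000000000fa000) (.leaf 0)) (.leaf 0)))) (.node (.node (.node (.leaf 0) (.node (.leaf 0xfa0000000000000003e8) (.leaf 0))) (.leaf 0)) (.leaf 0)))))) (.node (.node (.leaf 0) (.node (.node (.node (.node (.node (.node (.leaf 0x1ec7b000000000000000000001ec7b00000) (.leaf 0)) (.leaf 0)) (.leaf 0)) (.leaf 0)) (.node (.leaf 0) (.node (.leaf 0) (.node (.node (.leaf 0x3e800000000000000000000fa00000000) (.leaf 0)) (.leaf 0))))) (.node (.leaf 0) (.node (.node (.node (.node (.leaf 0) (.leaf 0xfa00000000000000000000000003e800000)) (.leaf 0)) (.leaf 0)) (.leaf 0))))) (.node (.node (.node (.node (.node (.node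 (.node (.leaf 0x1ec7b00000000001ec7b00000000000000000000) (.leaf 0)) (.leaf 0)) (.leaf 0)) (.leaf 0)) (.node (.leaf 0) (.node (.node (.leaf 0) (.node (.leaf 0x3e80000000000fa00000000000000000000000) (.leaf 0))) (.leaf 0)))) (.node (.node (.leaf 0) (.node (.node (.node (.leaf 0) (.leaf 0xfa0000000000000003e800000000000000000000)) (.leaf 0)) (.leaf 0))) (.leaf 0))) (.leaf 0)))) (.node (.node (.node (.leaf 0) (.node (.node (.node (.node (.node (.node (.leaf 0x1ec7b0000000000000000000000000000001ec7b0000000000) (.leaf 0)) (.leaf 0)) (.leaf 0)) (.leaf 0)) (.node (.node (.leaf 0) (.node (.leaf 0) (.node (.leaf 0x3e8000000000000000000000000000000fa0000000000000) (.leaf 0)))) (.leaf 0))) (.node (.node (.node (.leaf 0) (.node (.node (.leaf 0) (.leaf 0xfa000000000000000000000000000000000003e80000000000)) (.leaf 0))) (.leaf 0)) (.leaf 0)))) (.node (.node (.node (.node (.node (.node (.node (.leaf 0x1ec7b000000000000000000001ec7b0000000000000000000000000) (.leaf 0)) (.leaf 0)) (.leaf 0)) (.node (.leaf 0) (.node (.leaf 0) (.node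 (.leaf 0x3e800000000000000000000fa0000000000000000000000000000) (.leaf 0))))) (.leaf 0)) (.node (.node (.node (.node (.leaf 0) (.node (.leaf 0) (.leaf 0xfa00000000000000000000000003e80000000000000000000000000))) (.leaf 0)) (.leaf 0)) (.leaf 0))) (.leaf 0))) (.node (.node (.node (.node (.node (.node (.node (.node (.leaf 0x1ec7b00000000001ec7b0000000000000000000000000000000000000000) (.leaf 0)) (.leaf 0)) (.leaf 0)) (.node (.leaf 0) (.node (.node (.leaf 0) (.leaf 0x3e80000000000fa0000000000000000000000000000000000000000000)) (.leaf 0)))) (.node (.node (.node (.leaf 0) (.node (.leaf 0) (.leaf 0xfa0000000000000003e80000000000000000000000000000000000000000))) (.leaf 0)) (.leaf 0))) (.leaf 0)) (.leaf 0)) (.leaf 0))))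

theorem symW3 : SymW TW3 := by unfold SymW; decide +kernel

end K4m.Ev.PB
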