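import Pool.Agent.Lib.MP_392c14_co.Ev.CutW
set_option autoImplicit false
set_option maxRecDepth 1000000
set_option linter.all false

namespace K4m.Ev.PB

noncomputable def TW4 : Tr Nat := (.node (.node (.node (.node (.node (.node (.node (.node (.leaf 0) (.node (.leaf 0) (.node (.leaf 0) (.leaf 0x40100401000000040100401000000040100401)))) (.node (.leaf 0) (.node (.node (.leaf 0xfa3e8fa3e8fa3e8fa3e8fa3e8fa3e8fa3e8fa3e8fa3e8fa3e8fa3e8fa3e8) (.leaf 0x1c000000000000000070000000000000000000002c0000000000000000b)) (.node (.leaf 0x1c0000000000000000002c00000070000000000000000000b00000) (.leaf 0))))) (.node (.node (.node (.leaf 0) (.node (.leaf 0xfa3e8fa3e8fa3e8fa3e8fa3e8fa3e8fa3e8fa3e8fa3e8fa3e8fa3e8fa3e8) (.leaf 0x7000000000001c00000000000000000000000000b000000000002c00))) (.node (.leaf 0) (.node (.leaf 0x1c000000002c0000000000000000b00000000070000000000) (.leaf 0)))) (.node (.node (.node (.leaf 0) (.leaf 0x40100401000000000000000004010000000401004010000000401)) (.node (.leaf 0x2c000000001c00000000000000007000000000b0000000000) (.leaf 0))) (.node (.node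 (.leaf 0x2c0000000000000000001c000000b0000000000000000000700000) (.leaf 0)) (.leaf 0))))) (.node (.node (.node (.node (.node (.leaf 0) (.leaf 0xfa3e8fa3e8fa3e8fa3e8fa3e8fa3e8fa3e8fa3e8fa3e8fa3e8fa3e8fa3e8)) (.node (.leaf 0) (.leaf 0x70000000000000000000b01c0000000000000000002c0000000))) (.node (.node (.leaf 0) (.leaf 0x7000000000b000000000002c000000001c000000000000)) (.leaf 0))) (.node (.node (.node (.leaf 0) (.leaf 0xb0000000007000000000001c000000002c000000000000)) (.node (.leaf 0x4010000000401004010000000401000000000000000004010040100000) (.leaf 0))) (.node (.node (.leaf 0x2c0000000000000000b0000000000000000000001c00000000000000007) (.leaf 0)) (.leaf 0)))) (.node (.node (.node (.node (.leaf 0) (.leaf 0xb0000000000000000000702c0000000000000000001c0000000)) (.node (.leaf 0xb000000000002c000000000000000000000000007000000000001c00) (.leaf 0))) (.node (.node (.leaf 0x4010040100000004010040100000004010040100000000000000000000) (.leaf 0)) (.leaf 0))) (.leaf 0)))) (.leaf 0)) (.leaf 0)) (.leaf 0)) (.leaf 0))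

theorem symW4 : SymW TW4 := by unfold SymW; decide +kernel

end K4m.Ev.PB
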