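import Pool.Agent.Lib.MP_392c14_co.Ev.CutW
set_option autoImplicit false
set_option maxRecDepth 1000000
set_option linter.all false

namespace K4m.Ev.PB

noncomputable def TW5 : Tr Nat := (.node (.node (.node (.node (.node (.node (.node (.node (.leaf 0) (.node (.leaf 0) (.node (.leaf 0) (.leaf 0x4010040100401004010000000000004010000000000004010000000000)))) (.node (.leaf 0) (.node (.node (.leaf 0xfa3e8fa3e8fa3e8fa3e8fa3e8fa3e8fa3e8fa3e8fa3e8fa3e8fa3e8fa3e8) (.leaf 0x3200000000000c8000000000000000000000000000000000000000000)) (.node (.leaf 0x32000000000000000000000c8000000000000000000000000000) (.leaf 0))))) (.node (.node (.node (.leaf 0) (.node (.leaf 0xfa3e8fa3e8fa3e8fa3e8fa3e8fa3e8fa3e8fa3e8fa3e8fa3e8fa3e8fa3e8) (.leaf 0xc8000000000000000320000000000000000000000000000000000000000))) (.node (.leaf 0) (.node (.leaf 0x320000000000000000000000000000000c8000000000000) (.leaf 0)))) (.node (.node (.node (.leaf 0) (.leaf 0x4010000000000004010040100401000000040100000000000040100000)) (.node (.leaf 0x3200000000000c80000000000000000000000) (.leaf 0))) (.node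 (.node (.leaf 0x32000000000000000000000c80000000) (.leaf 0)) (.leaf 0))))) (.node (.node (.node (.node (.node (.leaf 0) (.leaf 0xfa3e8fa3e8fa3e8fa3e8fa3e8fa3e8fa3e8fa3e8fa3e8fa3e8fa3e8fa3e8)) (.node (.leaf 0) (.leaf 0xc80000000000000000000000000320000000000000000000000000))) (.node (.node (.leaf 0) (.leaf 0xc800000000000000000000000000000000000320000000000)) (.leaf 0))) (.node (.node (.node (.leaf 0) (.leaf 0xc80000000000000003200000000000000000000)) (.node (.leaf 0x40100000000000040100000004010040100401000000000000401) (.leaf 0))) (.node (.node (.leaf 0x3200000000000c800) (.leaf 0)) (.leaf 0)))) (.node (.node (.node (.node (.leaf 0) (.leaf 0xc800000000000000000000000003200000)) (.node (.leaf 0xc800000000000000032) (.leaf 0))) (.node (.node (.leaf 0x401000000000000401000000000000401004010040100401) (.leaf 0)) (.leaf 0))) (.leaf 0)))) (.leaf 0)) (.leaf 0)) (.leaf 0)) (.leaf 0))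

theorem symW5 : SymW TW5 := by unfold SymW; decide +kernel

end K4m.Ev.PB
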