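import Pool.Agent.Lib.MP_392c14_co.Ev.CutW
set_option autoImplicit false
set_option maxRecDepth 1000000
set_option linter.all false

namespace K4m.Ev.PB

noncomputable def TW6 : Tr Nat := (.node (.node (.node (.node (.node (.node (.node (.node (.leaf 0) (.node (.leaf 0) (.node (.leaf 0) (.leaf 0x4010000100001004010000100001004010000100001)))) (.node (.leaf 0) (.node (.node (.leaf 0xb43e8b43e8fa3e8fa2d0fa3e8b43e8fa2d0fa3e8b43e8fa3e8fa2d0fa2d0) (.leaf 0x3300000000330000000000)) (.node (.leaf 0x33000000000000000000000cc000000000000) (.leaf 0))))) (.node (.node (.node (.leaf 0) (.node (.leaf 0xfa2d0fa3e8b43e8b43e8b43e8fa3e8fa3e8fa2d0fa2d0fa2d0fa3e8b43e8) (.leaf 0x330000000000000000003300000))) (.node (.leaf 0) (.node (.leaf 0x330cc000000000000000000000000000) (.leaf 0)))) (.node (.node (.node (.leaf 0) (.leaf 0x4010000100001000000000000000000010040100400000010040100400)) (.node (.leaf 0x3300000000000000000000000000000000000000000cc0000000) (.leaf 0))) (.node (.node (.leaf 0x33000000000000000000000cc0000000000000000000000) (.leaf 0)) (.leaf 0))))) (.node (.node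 (.node (.node (.node (.leaf 0) (.leaf 0xfa3e8fa2d0fa2d0fa3e8fa2d0fa2d0b43e8b43e8fa3e8b43e8b43e8fa3e8)) (.node (.leaf 0) (.leaf 0x330000000000000000000000000000000000000033))) (.node (.node (.leaf 0) (.leaf 0xcc000000000000000000000000033000000000000000)) (.leaf 0))) (.node (.node (.node (.leaf 0) (.leaf 0x33000000000000000000000000000000000000000000000000000cc00)) (.node (.leaf 0x10040100400000010040100400000000000000000004000040000401) (.leaf 0))) (.node (.node (.leaf 0xcc00000000cc0000000000000000000000000000000000000) (.leaf 0)) (.leaf 0)))) (.node (.node (.node (.node (.leaf 0) (.leaf 0xcc00000000000000000000000000000000000000cc00000000000000000)) (.node (.leaf 0xcc000000000000000000cc00000000000000000000000000000000) (.leaf 0))) (.node (.node (.leaf 0x4000040000401004000040000401004000040000401000000000000000) (.leaf 0)) (.leaf 0))) (.leaf 0)))) (.leaf 0)) (.leaf 0)) (.leaf 0)) (.leaf 0))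

theorem symW6 : SymW TW6 := by unfold SymW; decide +kernel

end K4m.Ev.PB
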