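import Pool.Agent.Lib.MP_392c14_co.Ev.CutW
set_option autoImplicit false
set_option maxRecDepth 1000000
set_option linter.all false

namespace K4m.Ev.PB

noncomputable def TW7 : Tr Nat := (.node (.node (.node (.node (.node (.node (.node (.leaf 0) (.node (.leaf 0) (.node (.node (.leaf 0xfa1ddfa1ddfa3e8777e8fa3e8fa1dd777e8fa3e8fa1ddfa3e8777e8777e8) (.leaf 0x3c000000003c00000000000000000000000000000000000)) (.node (.leaf 0xf000000000000000000000000003c00000000000000000000) (.leaf 0))))) (.node (.node (.node (.leaf 0) (.node (.leaf 0x777e8fa3e8fa1ddfa1ddfa1ddfa3e8fa3e8777e8777e8777e8fa3e8fa1dd) (.leaf 0x3c0000000000000000003c000000000000000000000000000000))) (.node (.leaf 0) (.node (.leaf 0xf00000000000000000000000000000000000000000000003c00000) (.leaf 0)))) (.node (.node (.leaf 0) (.node (.leaf 0xf0000003c0000000000000000000000000) (.leaf 0))) (.node (.node (.leaf 0xf000000000000000000000000003c0000000000) (.leaf 0)) (.leaf 0))))) (.node (.node (.node (.node (.node (.leaf 0) (.leaf 0xfa3e8777e8777e8fa3e8777e8777e8fa1ddfa1ddfa3e8fa1ddfa1ddfa3e8))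 (.node (.leaf 0) (.leaf 0x3c000000000000000000000000000000000000003c000000000000000))) (.node (.node (.leaf 0) (.leaf 0xf000000000000000000000000000000000000000000000000000000003c)) (.leaf 0))) (.node (.node (.node (.leaf 0) (.leaf 0x3c000000000000000000000f000000000000000000)) (.leaf 0)) (.node (.node (.leaf 0xf000000000f0000000000000) (.leaf 0)) (.leaf 0)))) (.node (.node (.node (.node (.leaf 0) (.leaf 0xf000000000000000000000000000000000000000f000)) (.node (.leaf 0xf0000000000000000000f00000000) (.leaf 0))) (.leaf 0)) (.leaf 0)))) (.leaf 0)) (.leaf 0)) (.leaf 0)) (.leaf 0))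

theorem symW7 : SymW TW7 := by unfold SymW; decide +kernel

end K4m.Ev.PB
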