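import Pool.Agent.Lib.MP_392c14_co.Ev.Cut
import Pool.Agent.Lib.MP_392c14_co.Ev.Fin
import Pool.Agent.Lib.MP_392c14_co.Ev.ChkF
import Pool.Agent.Lib.MP_392c14_co.Ev.PB.W7
import Pool.Agent.Lib.MP_392c14_co.Ev.PB.W6
import Pool.Agent.Lib.MP_392c14_co.Ev.PB.W5
import Pool.Agent.Lib.MP_392c14_co.Ev.PB.W4
import Pool.Agent.Lib.MP_392c14_co.Ev.PB.W3
import Pool.Agent.Lib.MP_392c14_co.Ev.PB.W2
import Pool.Agent.Lib.MP_392c14_co.Ev.PB.W1
import Pool.Agent.Lib.MP_392c14_co.Ev.PB.W0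
set_option autoImplicit false
set_option maxRecDepth 1000000
set_option linter.all false

namespace K4m.Ev.PB

/-- the unweighted cuts -/
noncomputable def cutU : CL := .nil

noncomputable def cutL : CL := (.consw TW0 180926197 (.consw TW1 102240652 (.consw TW2 417080011 (.consw TW3 273626409 (.consw TW4 731 (.consw TW5 346 (.consw TW6 863 (.consw TW7 15056311 .nil))))))))

theorem cutL_good : cutL.Good := ⟨symW0, symW1, symW2, symW3, symW4, symW5, symW6, symW7, trivial⟩

end K4m.Ev.PB
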