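import Pool.Agent.Lib.MP_392c14_co.Ev.PB.All
import Pool.Agent.Lib.MP_392c14_co.Ev.PlanC
set_option autoImplicit false
set_option maxRecDepth 1000000
set_option linter.all false

namespace K4m.Ev.PB

/-- the conclusion of the certificate -/
theorem final (hl : ((2 : ℕ) : ℝ) / (7 : ℕ) ≤ rho) (hu : rho ≤ ((28572 : ℕ) : ℝ) / (100000 : ℕ))
    {V : Type} [Fintype V] [DecidableEq V] (G : TG V) (w : V → ℝ) (hw : IsW w) (t : ℝ)
    (hd : ∀ x, deg G w x = t) :
    EU G w (fun u => ∑ y, w y * (wl WP (lk15 G u y) : ℝ)) + (306052995360 : ℕ) / 5040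
      ≤ EU G w (fun u => ∑ y, w y * (wl WQ (lk15 G u y) : ℝ)) + |rho - t| * (35712705200669016240 : ℕ) / 5040 :=
  cert.planB cert_good WP WQ WP_ok WQ_ok 646919891329 2 7 340866895969 28572 100000 1 35712705200669016240 306052995360 (by norm_num) (by norm_num)
    (by norm_num) (by norm_num) (by norm_num) checked hl hu G w hw t hd

/-- the conclusion with the integer weights -/
theorem final1 (hl : 2 / 7 ≤ rho) (hu : rho ≤ 28572 / 100000)
    {V : Type} [Fintype V] [DecidableEq V] (G : TG V) (w : V → ℝ) (hw : IsW w) (t : ℝ)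
    (hd : ∀ x, deg G w x = t) (hn : |rho - t| ≤ 1 / 10 ^ 9) :
    EU G w (fun u => ∑ y, w y * (wl W1 (lk15 G u y) : ℝ)) < 6 / 125 * EU G w (fun _ => 1) := by
  have h := final (by push_cast; exact hl) (by push_cast; exact hu) G w hw t hd
  rw [WP_eq, EU_smul] at h
  have e : EU G w (fun u => ∑ y, w y * (wl WQ (lk15 G u y) : ℝ)) =
      ((14393606763612 : ℕ) : ℝ) * EU G w (fun _ => 1) := EU_nil G w hw 14393606763612
  rw [e] at h
  push_cast at h
  linarith [abs_nonneg (rho - t)]

end K4m.Ev.PB
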