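import Pool.Agent.Lib.MP_392c14_co.Ev.PB.VP0
import Pool.Agent.Lib.MP_392c14_co.Ev.PB.VP1
import Pool.Agent.Lib.MP_392c14_co.Ev.PB.VP2
import Pool.Agent.Lib.MP_392c14_co.Ev.PB.VP3
import Pool.Agent.Lib.MP_392c14_co.Ev.PB.VP4
import Pool.Agent.Lib.MP_392c14_co.Ev.PB.VP5
import Pool.Agent.Lib.MP_392c14_co.Ev.PB.VP6
import Pool.Agent.Lib.MP_392c14_co.Ev.PB.VP8
import Pool.Agent.Lib.MP_392c14_co.Ev.PB.VP9
import Pool.Agent.Lib.MP_392c14_co.Ev.PB.VP10
import Pool.Agent.Lib.MP_392c14_co.Ev.PB.VP12
set_option autoImplicit false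
set_option maxRecDepth 1000000
set_option linter.all false

namespace K4m.Ev.PB

/-- the merged table -/
noncomputable def QV : Tr (Tr Nat) := (.node (.node (.node (.node (.node (.node (.node (.node (.node (.node (.leaf tV0) (.leaf tV512)) (.node (.leaf tV256) (.leaf tV768))) (.node (.node (.leaf tV128) (.leaf tV640)) (.node (.leaf tV384) (.leaf tV896)))) (.node (.node (.node (.leaf tV64) (.leaf tV576)) (.node (.leaf tV320) (.leaf (.leaf 0)))) (.node (.node (.leaf tV192) (.leaf tV704)) (.node (.leaf tV448) (.leaf (.leaf 0)))))) (.node (.node (.node (.node (.leaf tV32) (.leaf tV544)) (.node (.leaf tV288) (.leaf tV800))) (.node (.node (.leaf tV160) (.leaf (.leaf 0))) (.node (.leaf tV416) (.leaf (.leaf 0))))) (.node (.node (.node (.leaf tV96) (.leaf tV608)) (.node (.leaf tV352) (.leaf (.leaf 0)))) (.node (.node (.leaf tV224) (.leaf (.leaf 0))) (.node (.leaf tV480) (.leaf (.leaf 0))))))) (.node (.node (.node (.node (.node (.leaf tV16) (.leaf tV528)) (.node (.leaf tV272) (.leaf tV784))) (.node (.node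 (.leaf tV144) (.leaf tV656)) (.leaf (.leaf 0)))) (.node (.node (.node (.leaf tV80) (.leaf tV592)) (.node (.leaf tV336) (.leaf (.leaf 0)))) (.node (.node (.leaf tV208) (.leaf tV720)) (.leaf (.leaf 0))))) (.node (.node (.node (.node (.leaf tV48) (.leaf tV560)) (.node (.leaf tV304) (.leaf tV816))) (.node (.node (.leaf tV176) (.leaf (.leaf 0))) (.leaf (.leaf 0)))) (.leaf (.leaf 0))))) (.node (.node (.node (.node (.node (.node (.leaf tV8) (.leaf tV520)) (.node (.leaf tV264) (.leaf (.leaf 0)))) (.node (.node (.leaf tV136) (.leaf tV648)) (.node (.leaf tV392) (.leaf (.leaf 0))))) (.node (.node (.node (.leaf tV72) (.leaf (.leaf 0))) (.leaf (.leaf 0))) (.node (.node (.leaf tV200) (.leaf (.leaf 0))) (.leaf (.leaf 0))))) (.node (.node (.node (.node (.leaf tV40) (.leaf tV552)) (.node (.leaf tV296) (.leaf (.leaf 0)))) (.node (.node (.leaf tV168) (.leaf (.leaf 0))) (.node (.leaf tV424) (.leaf (.leaf 0))))) (.node (.node (.node (.leaf tV104) (.leaf (.leaf 0))) (.leaf (.leaf 0))) (.node (.node (.leaf tV232) (.leaf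 (.leaf 0))) (.leaf (.leaf 0)))))) (.node (.node (.node (.node (.node (.leaf tV24) (.leaf tV536)) (.node (.leaf tV280) (.leaf (.leaf 0)))) (.node (.node (.leaf tV152) (.leaf tV664)) (.leaf (.leaf 0)))) (.node (.node (.node (.leaf tV88) (.leaf (.leaf 0))) (.leaf (.leaf 0))) (.node (.node (.leaf tV216) (.leaf (.leaf 0))) (.leaf (.leaf 0))))) (.node (.node (.node (.node (.leaf tV56) (.leaf tV568)) (.node (.leaf tV312) (.leaf (.leaf 0)))) (.node (.node (.leaf tV184) (.leaf (.leaf 0))) (.leaf (.leaf 0)))) (.leaf (.leaf 0)))))) (.node (.node (.node (.node (.node (.node (.node (.leaf tV4) (.leaf tV516)) (.node (.leaf tV260) (.leaf tV772))) (.node (.node (.leaf tV132) (.leaf (.leaf 0))) (.node (.leaf tV388) (.leaf (.leaf 0))))) (.node (.node (.node (.leaf tV68) (.leaf tV580)) (.node (.leaf tV324) (.leaf (.leaf 0)))) (.node (.node (.leaf tV196) (.leaf (.leaf 0))) (.node (.leaf tV452) (.leaf (.leaf 0)))))) (.node (.node (.node (.node (.leaf tV36) (.leaf (.leaf 0))) (.node (.leaf tV292) (.leaf (.leaf 0))))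 (.leaf (.leaf 0))) (.node (.node (.node (.leaf tV100) (.leaf (.leaf 0))) (.node (.leaf tV356) (.leaf (.leaf 0)))) (.leaf (.leaf 0))))) (.node (.node (.node (.node (.node (.leaf tV20) (.leaf tV532)) (.node (.leaf tV276) (.leaf tV788))) (.node (.node (.leaf tV148) (.leaf (.leaf 0))) (.leaf (.leaf 0)))) (.node (.node (.node (.leaf tV84) (.leaf tV596)) (.node (.leaf tV340) (.leaf (.leaf 0)))) (.node (.node (.leaf tV212) (.leaf (.leaf 0))) (.leaf (.leaf 0))))) (.node (.node (.node (.node (.leaf tV52) (.leaf (.leaf 0))) (.node (.leaf tV308) (.leaf (.leaf 0)))) (.leaf (.leaf 0))) (.leaf (.leaf 0))))) (.node (.node (.node (.node (.node (.node (.leaf tV12) (.leaf tV524)) (.node (.leaf tV268) (.leaf (.leaf 0)))) (.node (.node (.leaf tV140) (.leaf (.leaf 0))) (.node (.leaf tV396) (.leaf (.leaf 0))))) (.node (.node (.node (.leaf tV76) (.leaf (.leaf 0))) (.leaf (.leaf 0))) (.node (.node (.leaf tV204) (.leaf (.leaf 0))) (.leaf (.leaf 0))))) (.node (.node (.node (.node (.leaf tV44) (.leaf (.leaf 0))) (.node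 (.leaf tV300) (.leaf (.leaf 0)))) (.leaf (.leaf 0))) (.node (.node (.node (.leaf tV108) (.leaf (.leaf 0))) (.leaf (.leaf 0))) (.leaf (.leaf 0))))) (.node (.node (.node (.node (.node (.leaf tV28) (.leaf tV540)) (.node (.leaf tV284) (.leaf (.leaf 0)))) (.node (.node (.leaf tV156) (.leaf (.leaf 0))) (.leaf (.leaf 0)))) (.node (.node (.node (.leaf tV92) (.leaf (.leaf 0))) (.leaf (.leaf 0))) (.node (.node (.leaf tV220) (.leaf (.leaf 0))) (.leaf (.leaf 0))))) (.node (.node (.node (.node (.leaf tV60) (.leaf (.leaf 0))) (.node (.leaf tV316) (.leaf (.leaf 0)))) (.leaf (.leaf 0))) (.leaf (.leaf 0))))))) (.node (.node (.node (.node (.node (.node (.node (.node (.leaf tV2) (.leaf tV514)) (.node (.leaf tV258) (.leaf tV770))) (.node (.node (.leaf tV130) (.leaf tV642)) (.leaf (.leaf 0)))) (.node (.node (.node (.leaf tV66) (.leaf tV578)) (.node (.leaf tV322) (.leaf (.leaf 0)))) (.node (.node (.leaf tV194) (.leaf tV706)) (.leaf (.leaf 0))))) (.node (.node (.node (.node (.leaf tV34) (.leaf tV546)) (.node (.leaf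 tV290) (.leaf tV802))) (.node (.node (.leaf tV162) (.leaf (.leaf 0))) (.leaf (.leaf 0)))) (.node (.node (.node (.leaf tV98) (.leaf tV610)) (.node (.leaf tV354) (.leaf (.leaf 0)))) (.node (.node (.leaf tV226) (.leaf (.leaf 0))) (.leaf (.leaf 0)))))) (.node (.node (.node (.node (.node (.leaf tV18) (.leaf tV530)) (.leaf (.leaf 0))) (.leaf (.leaf 0))) (.node (.node (.node (.leaf tV82) (.leaf tV594)) (.leaf (.leaf 0))) (.leaf (.leaf 0)))) (.node (.node (.node (.node (.leaf tV50) (.leaf tV562)) (.leaf (.leaf 0))) (.leaf (.leaf 0))) (.leaf (.leaf 0))))) (.node (.node (.node (.node (.node (.node (.leaf tV10) (.leaf tV522)) (.node (.leaf tV266) (.leaf (.leaf 0)))) (.node (.node (.leaf tV138) (.leaf tV650)) (.leaf (.leaf 0)))) (.node (.node (.node (.leaf tV74) (.leaf (.leaf 0))) (.leaf (.leaf 0))) (.node (.node (.leaf tV202) (.leaf (.leaf 0))) (.leaf (.leaf 0))))) (.node (.node (.node (.node (.leaf tV42) (.leaf tV554)) (.node (.leaf tV298) (.leaf (.leaf 0)))) (.node (.node (.leaf tV170) (.leaf (.leaf 0)))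 (.leaf (.leaf 0)))) (.node (.node (.node (.leaf tV106) (.leaf (.leaf 0))) (.leaf (.leaf 0))) (.node (.node (.leaf tV234) (.leaf (.leaf 0))) (.leaf (.leaf 0)))))) (.node (.node (.node (.node (.node (.leaf tV26) (.leaf tV538)) (.leaf (.leaf 0))) (.leaf (.leaf 0))) (.node (.node (.node (.leaf tV90) (.leaf (.leaf 0))) (.leaf (.leaf 0))) (.leaf (.leaf 0)))) (.node (.node (.node (.node (.leaf tV58) (.leaf tV570)) (.leaf (.leaf 0))) (.leaf (.leaf 0))) (.leaf (.leaf 0)))))) (.node (.node (.node (.node (.node (.node (.node (.leaf tV6) (.leaf tV518)) (.node (.leaf tV262) (.leaf tV774))) (.node (.node (.leaf tV134) (.leaf (.leaf 0))) (.leaf (.leaf 0)))) (.node (.node (.node (.leaf tV70) (.leaf tV582)) (.node (.leaf tV326) (.leaf (.leaf 0)))) (.node (.node (.leaf tV198) (.leaf (.leaf 0))) (.leaf (.leaf 0))))) (.node (.node (.node (.node (.leaf tV38) (.leaf (.leaf 0))) (.node (.leaf tV294) (.leaf (.leaf 0)))) (.leaf (.leaf 0))) (.node (.node (.node (.leaf tV102) (.leaf (.leaf 0))) (.node (.leaf tV358) (.leaf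 (.leaf 0)))) (.leaf (.leaf 0))))) (.node (.node (.node (.node (.node (.leaf tV22) (.leaf tV534)) (.leaf (.leaf 0))) (.leaf (.leaf 0))) (.node (.node (.node (.leaf tV86) (.leaf tV598)) (.leaf (.leaf 0))) (.leaf (.leaf 0)))) (.node (.node (.node (.node (.leaf tV54) (.leaf (.leaf 0))) (.leaf (.leaf 0))) (.leaf (.leaf 0))) (.leaf (.leaf 0))))) (.leaf (.leaf 0))))) (.node (.node (.node (.node (.node (.node (.node (.node (.node (.leaf tV1) (.leaf tV513)) (.node (.leaf tV257) (.leaf tV769))) (.node (.node (.leaf tV129) (.leaf tV641)) (.node (.leaf tV385) (.leaf tV897)))) (.node (.node (.node (.leaf tV65) (.leaf tV577)) (.node (.leaf tV321) (.leaf (.leaf 0)))) (.node (.node (.leaf tV193) (.leaf tV705)) (.node (.leaf tV449) (.leaf (.leaf 0)))))) (.node (.node (.node (.node (.leaf tV33) (.leaf tV545)) (.node (.leaf tV289) (.leaf tV801))) (.node (.node (.leaf tV161) (.leaf (.leaf 0))) (.node (.leaf tV417) (.leaf (.leaf 0))))) (.leaf (.leaf 0)))) (.node (.node (.node (.node (.node (.leaf tV17) (.leaf tV529))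 (.node (.leaf tV273) (.leaf tV785))) (.node (.node (.leaf tV145) (.leaf tV657)) (.leaf (.leaf 0)))) (.leaf (.leaf 0))) (.leaf (.leaf 0)))) (.node (.node (.node (.node (.node (.node (.leaf tV9) (.leaf tV521)) (.node (.leaf tV265) (.leaf (.leaf 0)))) (.node (.node (.leaf tV137) (.leaf tV649)) (.node (.leaf tV393) (.leaf (.leaf 0))))) (.node (.node (.node (.leaf tV73) (.leaf (.leaf 0))) (.leaf (.leaf 0))) (.node (.node (.leaf tV201) (.leaf (.leaf 0))) (.leaf (.leaf 0))))) (.node (.node (.node (.node (.leaf tV41) (.leaf tV553)) (.node (.leaf tV297) (.leaf (.leaf 0)))) (.node (.node (.leaf tV169) (.leaf (.leaf 0))) (.node (.leaf tV425) (.leaf (.leaf 0))))) (.leaf (.leaf 0)))) (.node (.node (.node (.node (.node (.leaf tV25) (.leaf tV537)) (.node (.leaf tV281) (.leaf (.leaf 0)))) (.node (.node (.leaf tV153) (.leaf tV665)) (.leaf (.leaf 0)))) (.leaf (.leaf 0))) (.leaf (.leaf 0))))) (.node (.node (.node (.node (.node (.node (.node (.leaf tV5) (.leaf tV517)) (.node (.leaf tV261) (.leaf tV773))) (.node (.node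 (.leaf tV133) (.leaf (.leaf 0))) (.node (.leaf tV389) (.leaf (.leaf 0))))) (.node (.node (.node (.leaf tV69) (.leaf tV581)) (.node (.leaf tV325) (.leaf (.leaf 0)))) (.node (.node (.leaf tV197) (.leaf (.leaf 0))) (.node (.leaf tV453) (.leaf (.leaf 0)))))) (.node (.node (.node (.node (.leaf tV37) (.leaf (.leaf 0))) (.node (.leaf tV293) (.leaf (.leaf 0)))) (.leaf (.leaf 0))) (.leaf (.leaf 0)))) (.node (.node (.node (.node (.node (.leaf tV21) (.leaf tV533)) (.node (.leaf tV277) (.leaf tV789))) (.node (.node (.leaf tV149) (.leaf (.leaf 0))) (.leaf (.leaf 0)))) (.leaf (.leaf 0))) (.leaf (.leaf 0)))) (.leaf (.leaf 0)))) (.node (.node (.node (.node (.node (.node (.node (.node (.leaf tV3) (.leaf tV515)) (.node (.leaf tV259) (.leaf tV771))) (.node (.node (.leaf tV131) (.leaf tV643)) (.leaf (.leaf 0)))) (.node (.node (.node (.leaf tV67) (.leaf tV579)) (.node (.leaf tV323) (.leaf (.leaf 0)))) (.node (.node (.leaf tV195) (.leaf tV707)) (.leaf (.leaf 0))))) (.node (.node (.node (.node (.leaf tV35) (.leaf tV547))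 (.node (.leaf tV291) (.leaf tV803))) (.node (.node (.leaf tV163) (.leaf (.leaf 0))) (.leaf (.leaf 0)))) (.leaf (.leaf 0)))) (.node (.node (.node (.node (.node (.leaf tV19) (.leaf tV531)) (.leaf (.leaf 0))) (.leaf (.leaf 0))) (.leaf (.leaf 0))) (.leaf (.leaf 0)))) (.leaf (.leaf 0))) (.leaf (.leaf 0)))))

def LTV : Nat := 0x6680000000000000000000000000000000000000000000000000000000000000000000000000000000000000000000000000000000000000000000000270000000000000000004596260000000000000004590005e50000000000000114184185a40000000000000000000000000000000000000000000000000000000000000000000000230000000000000000003d75620000000000000000000000000000000000000000000000000000000004590000000005210000000114180000003964e000000000000000000000000000000000000000000001501f00000000000001001701401e00000000000000f3d635349d00000001001700000001201c00000000f3d600000031145b00001100e39500e3952d041a00001000d35400d35428f3d900000000000000000000000000000000000000000000001800000000000000000000000000000000000000031300039700000000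000000000000000000000000031300000000035600000000000000000000000000000f0002d20002d200031500000000000000000000000000000000000000c01100e01400000000000000001000001300000000000000b28f24d2d200000e00001100000e00001100000d00c29000a24d20c29000000c00024f00020c00024f00000b00b20e0091cb1cb20e00000000000000000000000000000000a00d00000000a00d00000a00000c00000a00000c0000090091cb0081891891cb00000000000a00000000000a0000000081890000001481890000080001480001480001480000070071070071071071070000000000000000000000000000060060060060060060060000050050050050050050050000040040c40040c40c40c4000003003003003003003003000002002082002082082082000001001041001041041041000000000000000000000000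

end K4m.Ev.PB
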