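import Pool.Agent.Lib.MP_392c14_co.Ev.ChkG
import Pool.Agent.Lib.MP_392c14_co.Ev.MaskL
import Pool.Agent.Lib.MP_392c14_co.Ev.FiveT
import Pool.Agent.Lib.MP_392c14_co.Ev.PB.Tabs
import Pool.Agent.Lib.MP_392c14_co.Ev.PB.QTree
import Pool.Agent.Lib.MP_392c14_co.Ev.PB.Q3
import Pool.Agent.Lib.MP_392c14_co.Ev.PB.Mu
import Pool.Agent.Lib.MP_392c14_co.Ev.PB.Cuts
import Pool.Agent.Lib.MP_392c14_co.Ev.PB.QV
import Pool.Agent.Lib.MP_392c14_co.Ev.PB.Pen
set_option autoImplicit false
set_option maxRecDepth 1000000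
set_option linter.all false

namespace K4m.Ev.PB

/-- the test of one code -/
noncomputable def testL (m : Nat) : Bool :=
  evalV 72 4722366482869645213696 tabQ tabC 72 4722366482869645213696 tI3 tabQ3 cutU 72 4722366482869645213696 LTV QV 80 1208925819614629174706176 tMu 604462909807314587353088 masks5 masks3L masksCL masksDL
    (force (fun pp => force (fun pn => chkR 1 1 2361183241434822606848 2361183241434822606848 604462909807314587353088 2 7 340866895969 28572 100000 1 35712705200669016240 pp pn) ((fun m => 60 * pj WQ m) m)) ((fun m => 60 * pj WP m + 646919891329) m)) m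

end K4m.Ev.PB
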