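import Pool.Agent.Lib.MP_392c14_co.Ev.CutW
set_option autoImplicit false
set_option maxRecDepth 1000000
set_option linter.all false

namespace K4m.Ev.PB

noncomputable def TW0 : Tr Nat := (.node (.node (.node (.node (.node (.node (.node (.node (.node (.leaf 0) (.node (.leaf 0) (.leaf 0x490004900000124000000000000124000000000000000000000000000))) (.node (.node (.leaf 0) (.leaf 0x124000000000049000490000000000000000000000000124000000000000)) (.node (.leaf 0x1240012400000000000000000000490000000000000490000000000) (.leaf 0)))) (.node (.node (.node (.leaf 0) (.leaf 0x124000000000000000490004900000000001240000000000000000000000)) (.node (.leaf 0x1240000000000001240000000000490004900000000000000000000) (.leaf 0))) (.node (.node (.leaf 0) (.leaf 0xfa0000000000000003e80000000000000000000000000000000000000000)) (.node (.leaf 0xfa00000000000000000000000003e80000000000000000000000000) (.leaf 0))))) (.node (.node (.node (.node (.leaf 0) (.leaf 0x490000000000124000000000049000000000000000000001240000000)) (.node (.leaf 0) (.leaf 0x3e80000000000fa0000000000000000000000000000000000000000000))) (.node (.node (.leaf 0x12400000000000012400000000000000000000490004900000) (.leaf 0)) (.node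 (.leaf 0xfa000000000000000000000000000000000003e80000000000) (.leaf 0)))) (.node (.node (.node (.leaf 0x1240012400000000004900000000000004900000) (.leaf 0)) (.node (.leaf 0xfa0000000000000003e800000000000000000000) (.leaf 0))) (.node (.node (.leaf 0xfa00000000000000000000000003e800000) (.leaf 0)) (.leaf 0))))) (.node (.node (.node (.node (.leaf 0) (.node (.leaf 0x4900000000000000000000124000000000049000000000012400) (.leaf 0x3e800000000000000000000fa0000000000000000000000000000))) (.node (.node (.leaf 0x49000000000000000000000000012400124000000000049) (.leaf 0x3e8000000000000000000000000000000fa0000000000000)) (.leaf 0))) (.node (.node (.node (.leaf 0x4900000000001240012400000000000000049) (.leaf 0x3e80000000000fa00000000000000000000000)) (.leaf 0)) (.node (.node (.leaf 0xfa0000000000000003e8) (.leaf 0)) (.leaf 0)))) (.node (.node (.node (.node (.leaf 0x49000000000000049000001240012400) (.leaf 0x3e800000000000000000000fa00000000)) (.node (.leaf 0x3e80000000000fa000) (.leaf 0))) (.leaf 0)) (.leaf 0)))) (.leaf 0)) (.leaf 0)) (.leaf 0)) (.leaf 0))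

theorem symW0 : SymW TW0 := by unfold SymW; decide +kernel

end K4m.Ev.PB
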